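import Pool.Agent.N658.TP.Stm
import Pool.Agent.Y738.PE.Glob3

/-! # The pipeline: from a mixture of PEPS to one translation invariant tensor -/

open scoped BigOperators ComplexConjugate Classical

noncomputable section

namespace Pool.Agent.N563.TP

open Pool.Agent.Y738.PE Pool.Agent.N658.TP

/-- the contraction of the tensor is the superposition of all tilings with the mixed block vector -/
theorem collapse3 (h2 : StmMixSum) {d m M L K : ℕ} [NeZero L] [NeZero m] (hmL : m + 1 ≤ L)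
    {κ : Type} [Fintype κ] (w : Fin K → ℂ) (C : Fin K → Site m → Fin d → κ → κ → κ → κ → ℂ)
    (y0 : κ × κ × κ × κ) (i0 : Fin K) (s : Conf d L) :
    pepsX (tensG (N := (m + 1) * M + 1) (wB (m + 1) M (uX w C y0) (i0, y0))) L s =
      tot (m + 1) M (fun σ : BConf d (m + 1) => mixV w C (glue σ)) L s := by
  have h1 := Pool.Agent.Y153.PE2.Labels.labels d ((m + 1) * M + 1) L (Fin K × (κ × κ × κ × κ))
    (wB (m + 1) M (uX w C y0) (i0, y0)) s
  rw [h1]
  unfold tot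
  refine Finset.sum_congr rfl fun θ hθ => ?_
  have hv : Valid θ := (Finset.mem_filter.1 hθ).2
  have h3 := Pool.Agent.Y378.PE.inner d (m + 1) M L hmL (Fin K × (κ × κ × κ × κ)) (uX w C y0)
    (i0, y0)
    (by
      intro p s yl yl' y yd hp
      have hr : (red p).1 = 0 := by
        unfold red
        rw [hp]
        simp
      unfold uX wI
      simp only [hp, hr, ne_eq, not_true_eq_false, false_implies, true_and, if_true])
    (by
      intro p s yl y yd yd' hp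
      have hr : (red p).2 = 0 := by
        unfold red
        rw [hp]
        simp
      unfold uX wI
      simp only [hp, hr, ne_eq, not_true_eq_false, false_implies, and_true, if_true])
    θ hv s
  rw [h3]
  have h4 : (fun σ : BConf d (m + 1) => ∑ g : Site (m + 1) → Fin K × (κ × κ × κ × κ),
      ∏ p : Site (m + 1),
      uX w C y0 p (glue σ p) (g (p.1 - 1, p.2)) (g p) (g (p.1, p.2 - 1))) =
      fun σ : BConf d (m + 1) => mixV w C (glue σ) := by
    funext σ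
    exact h2 d m K κ w C y0 (glue σ)
  rw [h4]

/-- the parameters -/
theorem param3 {r m : ℕ} {ε : ℝ} (hr : 0 < r) (hε : 0 < ε) (hε1 : ε ≤ 1) (M : ℕ)
    (hm : 16 * (r : ℝ) ≤ ε * m) (hM : 24 / ε ≤ M) :
    2 * (1 - ((M * (M - 1) * (PosF r m).card : ℕ) : ℝ) / ((((m + 1) * M + 2) ^ 2 : ℕ) : ℝ)) +
      2 * (r : ℝ) / m ≤ ε := by
  have hr1 : (1 : ℝ) ≤ r := by exact_mod_cast hr
  have hM' : 24 ≤ ε * M := by
    rw [div_le_iff₀ hε] at hM; linarith
  have hm0 : (0 : ℝ) ≤ m := Nat.cast_nonneg m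
  have hM0 : (0 : ℝ) ≤ M := Nat.cast_nonneg M
  have hmr : (r : ℝ) ≤ m := by nlinarith
  have hrm : r ≤ m := by exact_mod_cast hmr
  have hM24 : (24 : ℝ) ≤ M := by nlinarith
  have hMn : 24 ≤ M := by exact_mod_cast hM24
  have hm16 : (16 : ℝ) ≤ m := by nlinarith
  have hmp : (0 : ℝ) < m := by linarith
  have hcard : ((m : ℝ) - r + 1) ^ 2 = ((PosF r m).card : ℝ) := by
    unfold PosF
    rw [Finset.card_product, Finset.card_range, Nat.cast_mul]
    have e1 : ((m - r + 1 : ℕ) : ℝ) = (m : ℝ) - r + 1 := by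
      rw [Nat.cast_add, Nat.cast_sub hrm]; simp
    rw [e1]
    ring
  have hrε : (r : ℝ) / m ≤ ε / 16 := by
    rw [div_le_iff₀ hmp]
    nlinarith
  -- `|Pos| ≥ (m+1)^2 (1 - 2 r / m)`
  have hb : ((m : ℝ) + 1) ^ 2 * (1 - 2 * (r / m)) ≤ ((PosF r m).card : ℝ) := by
    rw [← hcard]
    have e2 : ((m : ℝ) + 1) ^ 2 * (2 * (r / m)) = 2 * r * ((m + 1) ^ 2 / m) := by
      field_simp
    have e3 : ((m : ℝ) + 1) ≤ (m + 1) ^ 2 / m := by
      rw [le_div_iff₀ hmp]
      nlinarith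
    have e4 : 2 * (r : ℝ) * (m + 1) ≤ 2 * r * ((m + 1) ^ 2 / m) :=
      mul_le_mul_of_nonneg_left e3 (by positivity)
    have e5 : ((m : ℝ) + 1) ^ 2 * (1 - 2 * (r / m)) =
        (m + 1) ^ 2 - ((m : ℝ) + 1) ^ 2 * (2 * (r / m)) := by ring
    rw [e5, e2]
    nlinarith
  have ha : ((M : ℝ) + 1) ^ 2 * (1 - ε / 8) ≤ (M : ℝ) * (M - 1) := by
    nlinarith
  have hK : (0 : ℝ) < ((((m + 1) * M + 2) ^ 2 : ℕ) : ℝ) := by positivity
  have hc : ((((m + 1) * M + 2) ^ 2 : ℕ) : ℝ) ≤ ((m : ℝ) + 1) ^ 2 * ((M : ℝ) + 1) ^ 2 := by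
    push_cast
    have : (((m : ℝ) + 1) * M + 2) ≤ (m + 1) * (M + 1) := by nlinarith
    calc (((m : ℝ) + 1) * M + 2) ^ 2 ≤ ((m + 1) * (M + 1)) ^ 2 := by
          refine pow_le_pow_left₀ (by positivity) this 2
      _ = _ := by ring
  have hq0 : (0 : ℝ) ≤ r / m := by positivity
  have hprod : ((m : ℝ) + 1) ^ 2 * ((M : ℝ) + 1) ^ 2 * (1 - ε / 8 - 2 * (r / m)) ≤
      ((M * (M - 1) * (PosF r m).card : ℕ) : ℝ) := by
    have e3 : ((M * (M - 1) * (PosF r m).card : ℕ) : ℝ) =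
        (M : ℝ) * (M - 1) * ((PosF r m).card : ℝ) := by
      rw [Nat.cast_mul, Nat.cast_mul, Nat.cast_sub (by omega)]; simp
    rw [e3]
    have h8 : (0 : ℝ) ≤ 1 - 2 * (r / m) := by linarith
    have h9 := mul_le_mul ha hb (mul_nonneg (by positivity) h8) (by nlinarith)
    refine le_trans ?_ h9
    have h10 : (1 - ε / 8 - 2 * (r / m)) ≤ (1 - ε / 8) * (1 - 2 * ((r : ℝ) / m)) := by nlinarith
    have h11 : (0 : ℝ) ≤ ((m : ℝ) + 1) ^ 2 * ((M : ℝ) + 1) ^ 2 := by positivity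
    calc ((m : ℝ) + 1) ^ 2 * ((M : ℝ) + 1) ^ 2 * (1 - ε / 8 - 2 * (r / m))
        ≤ ((m : ℝ) + 1) ^ 2 * ((M : ℝ) + 1) ^ 2 * ((1 - ε / 8) * (1 - 2 * (r / m))) :=
          mul_le_mul_of_nonneg_left h10 h11
      _ = _ := by ring
  have hfrac : 1 - ε / 8 - 2 * (r / m) ≤
      ((M * (M - 1) * (PosF r m).card : ℕ) : ℝ) / ((((m + 1) * M + 2) ^ 2 : ℕ) : ℝ) := by
    rw [le_div_iff₀ hK]
    refine le_trans ?_ hprod
    have h12 : (0 : ℝ) ≤ 1 - ε / 8 - 2 * (r / m) := by linarith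
    calc (1 - ε / 8 - 2 * (r / m)) * ((((m + 1) * M + 2) ^ 2 : ℕ) : ℝ)
        ≤ (1 - ε / 8 - 2 * (r / m)) * (((m : ℝ) + 1) ^ 2 * ((M : ℝ) + 1) ^ 2) :=
          mul_le_mul_of_nonneg_left hc h12
      _ = _ := by ring
  have e6 : 2 * (r : ℝ) / m = 2 * (r / m) := by ring
  rw [e6]
  linarith

/-- summation over the positions against the sum over all sites -/
theorem pos_sum {r m : ℕ} [NeZero m] (hrm : r ≤ m) (hr : 0 < r) (E : Site m → ℂ)
    (hE : ∀ u, ‖E u‖ ≤ 1) :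
    ‖(∑ p ∈ PosF r m, E (((p.1 : ℕ) : ZMod m), ((p.2 : ℕ) : ZMod m))) - ∑ u : Site m, E u‖ ≤
      (m : ℝ) ^ 2 - ((PosF r m).card : ℝ) := by
  set φ : ℕ × ℕ → Site m := fun p => (((p.1 : ℕ) : ZMod m), ((p.2 : ℕ) : ZMod m)) with hφ
  have hinj : Set.InjOn φ (PosF r m : Set (ℕ × ℕ)) := by
    intro p hp q hq hpq
    have hp' := mem_PosF hrm (Finset.mem_coe.1 hp)
    have hq' := mem_PosF hrm (Finset.mem_coe.1 hq)
    have h1 : ((p.1 : ℕ) : ZMod m) = ((q.1 : ℕ) : ZMod m) := congrArg Prod.fst hpq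
    have h2 : ((p.2 : ℕ) : ZMod m) = ((q.2 : ℕ) : ZMod m) := congrArg Prod.snd hpq
    have h1' := congrArg ZMod.val h1
    have h2' := congrArg ZMod.val h2
    rw [ZMod.val_natCast, ZMod.val_natCast, Nat.mod_eq_of_lt (by omega),
      Nat.mod_eq_of_lt (by omega)] at h1' h2'
    exact Prod.ext h1' h2'
  have h3 : ∑ p ∈ PosF r m, E (((p.1 : ℕ) : ZMod m), ((p.2 : ℕ) : ZMod m)) =
      ∑ u ∈ (PosF r m).image φ, E u := by
    rw [Finset.sum_image hinj]
  rw [h3]
  have h4 : ∑ u : Site m, E u = ∑ u ∈ (PosF r m).image φ, E u +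
      ∑ u ∈ ((PosF r m).image φ)ᶜ, E u := by
    rw [Finset.sum_add_sum_compl]
  rw [h4]
  have h5 : (∑ u ∈ (PosF r m).image φ, E u) - (∑ u ∈ (PosF r m).image φ, E u +
      ∑ u ∈ ((PosF r m).image φ)ᶜ, E u) = -∑ u ∈ ((PosF r m).image φ)ᶜ, E u := by ring
  rw [h5, norm_neg]
  have h6 : (((PosF r m).image φ)ᶜ.card : ℝ) = (m : ℝ) ^ 2 - ((PosF r m).card : ℝ) := by
    rw [Finset.card_compl, Finset.card_image_of_injOn hinj]
    have h7 : Fintype.card (Site m) = m ^ 2 := by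
      simp only [Site, Fintype.card_prod, ZMod.card]
      ring
    rw [h7, Nat.cast_sub, Nat.cast_pow]
    rw [← h7, ← Finset.card_image_of_injOn hinj]
    exact Finset.card_le_univ _
  rw [← h6]
  refine (norm_sum_le _ _).trans ?_
  refine (Finset.sum_le_sum fun u _ => hE u).trans ?_
  simp

theorem pipe (h1 : StmMix) (h2 : StmMixSum) (h3 : StmMixExp) (h4 : StmAvg) : StmPipe := by
  intro d r hd hr
  obtain ⟨c₀, hc₀, hmix⟩ := h1 d r hd hr
  have hr1 : (1 : ℝ) ≤ r := by exact_mod_cast hr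
  have hT0 : (0 : ℝ) ≤ ((nT d r : ℕ) : ℝ) := Nat.cast_nonneg _
  refine ⟨c₀ + nT d r + 16 * r, by linarith, ?_⟩
  intro ε hε hε1 m f L _ _ hm hrL Ψ hΨ η hη hReach
  set M : ℕ := ⌈24 / ε⌉₊ with hM
  have hm' : c₀ + nT d r + 16 * r ≤ ε * m := by
    rw [div_le_iff₀ hε] at hm; linarith
  have hm0 : (0 : ℝ) ≤ m := Nat.cast_nonneg m
  have hεm : ε * m ≤ m := by nlinarith
  have hKm : nT d r ≤ m := by
    have : ((nT d r : ℕ) : ℝ) ≤ m := by linarith
    exact_mod_cast this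
  have hrm : r ≤ m := by
    have : (r : ℝ) ≤ m := by linarith
    exact_mod_cast this
  have hm16 : 16 * (r : ℝ) ≤ ε * m := by linarith
  have hmpos : (0 : ℝ) < m := by linarith
  have hMle : 24 / ε ≤ (M : ℝ) := Nat.le_ceil _
  have hM0 : 0 < M := by
    have : (0 : ℝ) < M := lt_of_lt_of_le (by positivity) hMle
    exact_mod_cast this
  have hpar := param3 (r := r) (m := m) hr hε hε1 M hm16 hMle
  obtain ⟨p, C, hp0, hp1, hCn, hB⟩ := hmix m f L hrm hrL Ψ hΨ η hη hReach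
  have hK0 : 0 < nT d r := by unfold nT; omega
  let i0 : Fin (nT d r) := ⟨0, hK0⟩
  -- the bond set is not empty
  have hf : 0 < f := by
    rcases Nat.eq_zero_or_pos f with h | h
    · exfalso
      subst h
      have h5 := hCn i0
      have h6 : nrm (pepsN (C i0)) = 0 := by
        unfold nrm
        refine Finset.sum_eq_zero fun s _ => ?_
        have : pepsN (C i0) s = 0 := by
          unfold pepsN
          refine Finset.sum_eq_zero fun hor _ => ?_
          exact (hor 0).elim0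
        rw [this]; simp
      rw [h6] at h5
      exact zero_ne_one h5
    · exact h
  let k0 : Fin f := ⟨0, hf⟩
  let y0 : Fin f × Fin f × Fin f × Fin f := (k0, k0, k0, k0)
  set w : Fin (nT d r) → ℂ := fun i => ((Real.sqrt (p i) : ℝ) : ℂ) with hw
  have hwn : ∀ i, ‖w i‖ ^ 2 = p i := by
    intro i
    rw [hw]
    simp only
    rw [Complex.norm_real, Real.norm_eq_abs, sq_abs, Real.sq_sqrt (hp0 i)]
  set Φ : BConf d (m + 1) → ℂ := fun σ => mixV w C (glue σ) with hΦ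
  have hexp := h3 d m (nT d r) r (Fin f) w C hd hKm hr
  have hΦ1 : nrm Φ = 1 := by
    rw [hΦ, hexp.1]
    simp only [hwn, hCn, mul_one]
    exact hp1
  have hcard : Fintype.card (Lab ((m + 1) * M + 1) × Lab ((m + 1) * M + 1) ×
      (Fin (nT d r) × (Fin f × Fin f × Fin f × Fin f))) = bondH d r m f ε := by
    simp only [Lab, Fintype.card_prod, Fintype.card_fin, bondH]
    rw [← hM]
    ring
  let e : Fin (bondH d r m f ε) ≃ Lab ((m + 1) * M + 1) × Lab ((m + 1) * M + 1) ×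
      (Fin (nT d r) × (Fin f × Fin f × Fin f × Fin f)) :=
    (finCongr hcard.symm).trans (Fintype.equivFin _).symm
  refine ⟨fun s a b c' t => tensG (N := (m + 1) * M + 1) (wB (m + 1) M (uX w C y0) (i0, y0)) s
    (e a) (e b) (e c') (e t), ?_⟩
  intro L' _ hL
  have hL1 : r + 2 * ((m + 1) * M + 1) + 3 ≤ L' := by
    refine le_trans ?_ hL
    nlinarith
  have hL2 : ((m + 1) * M + 1) ^ 2 ≤ L' := by
    refine le_trans ?_ hL
    nlinarith
  have hmL : m + 1 ≤ L' := by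
    have h5 : (m + 1) * 1 ≤ (m + 1) * M := Nat.mul_le_mul_left _ hM0
    omega
  have hpeps : pepsX (fun (s : Fin d) (a b c' t : Fin (bondH d r m f ε)) =>
      tensG (N := (m + 1) * M + 1) (wB (m + 1) M (uX w C y0) (i0, y0)) s
        (e a) (e b) (e c') (e t)) L' = tot (m + 1) M Φ L' := by
    rw [pepsX_equiv e (tensG (N := (m + 1) * M + 1) (wB (m + 1) M (uX w C y0) (i0, y0))) L']
    funext s
    exact collapse3 h2 hmL w C y0 i0 s
  have hPos : ∀ q ∈ PosF r m, q.1 + r ≤ m + 1 ∧ q.2 + r ≤ m + 1 := by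
    intro q hq
    have := mem_PosF hrm hq
    omega
  have hcardle : ((PosF r m).card : ℝ) ≤ (m : ℝ) ^ 2 := by
    unfold PosF
    rw [Finset.card_product, Finset.card_range]
    have : (m - r + 1) * (m - r + 1) ≤ m ^ 2 := by
      have h5 : m - r + 1 ≤ m := by omega
      calc (m - r + 1) * (m - r + 1) ≤ m * m := Nat.mul_le_mul h5 h5
        _ = m ^ 2 := by ring
    exact_mod_cast this
  have key : ∀ B : BConf d r → BConf d r → ℂ, Contr B →
      0 < nrm (tot (m + 1) M Φ L') ∧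
      ‖expec (tot (m + 1) M Φ L') 0 B / (nrm (tot (m + 1) M Φ L') : ℂ) - expec Ψ 0 B‖ ≤
        ε + c₀ * η := by
    intro B hBc
    obtain ⟨g1, g2⟩ := h4 d (m + 1) M L' r hd (Nat.succ_pos m) hM0 hr hL1 hL2 Φ hΦ1 (PosF r m)
      hPos ((m : ℝ) ^ 2) (by positivity) (by
        push_cast
        nlinarith) hcardle B hBc
    refine ⟨g1, ?_⟩
    -- the sum over the positions
    have g3 : (∑ q : {q // q ∈ PosF r m}, expecBlock Φ q.1 (hPos q.1 q.2) B) =
        ∑ i, (p i : ℂ) * ∑ q ∈ PosF r m,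
          expec (pepsN (C i)) (((q.1 : ℕ) : ZMod m), ((q.2 : ℕ) : ZMod m)) B := by
      have g4 : ∀ q : {q // q ∈ PosF r m}, expecBlock Φ q.1 (hPos q.1 q.2) B =
          ∑ i, (p i : ℂ) *
            expec (pepsN (C i)) (((q.1.1 : ℕ) : ZMod m), ((q.1.2 : ℕ) : ZMod m)) B := by
        intro q
        rw [hΦ, hexp.2 q.1 (mem_PosF hrm q.2) (hPos q.1 q.2) B]
        refine Finset.sum_congr rfl fun i _ => ?_
        rw [hwn]
      rw [Finset.sum_congr rfl fun q _ => g4 q]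
      rw [Finset.sum_comm]
      refine Finset.sum_congr rfl fun i _ => ?_
      rw [← Finset.mul_sum]
      congr 1
      exact Finset.sum_coe_sort (PosF r m) (fun q : ℕ × ℕ =>
        expec (pepsN (C i)) (((q.1 : ℕ) : ZMod m), ((q.2 : ℕ) : ZMod m)) B)
    have g5 : ∀ i, ‖(∑ q ∈ PosF r m,
          expec (pepsN (C i)) (((q.1 : ℕ) : ZMod m), ((q.2 : ℕ) : ZMod m)) B) -
          enS (pepsN (C i)) B‖ ≤ (m : ℝ) ^ 2 - ((PosF r m).card : ℝ) := by
      intro i
      unfold enS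
      refine pos_sum hrm hr (fun u => expec (pepsN (C i)) u B) fun u => ?_
      have := Pool.Agent.Y65.PE.bound d m r hrm (pepsN (C i)) u B hBc
      rw [hCn i] at this
      exact this
    have g6 : ‖(∑ q : {q // q ∈ PosF r m}, expecBlock Φ q.1 (hPos q.1 q.2) B) -
        ∑ i, (p i : ℂ) * enS (pepsN (C i)) B‖ ≤ (m : ℝ) ^ 2 - ((PosF r m).card : ℝ) := by
      rw [g3, ← Finset.sum_sub_distrib]
      calc ‖∑ i, ((p i : ℂ) * (∑ q ∈ PosF r m,
            expec (pepsN (C i)) (((q.1 : ℕ) : ZMod m), ((q.2 : ℕ) : ZMod m)) B) -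
            (p i : ℂ) * enS (pepsN (C i)) B)‖
          ≤ ∑ i, p i * ((m : ℝ) ^ 2 - ((PosF r m).card : ℝ)) := by
            refine (norm_sum_le _ _).trans (Finset.sum_le_sum fun i _ => ?_)
            rw [← mul_sub, norm_mul, Complex.norm_real, Real.norm_eq_abs, abs_of_nonneg (hp0 i)]
            exact mul_le_mul_of_nonneg_left (g5 i) (hp0 i)
        _ = (m : ℝ) ^ 2 - ((PosF r m).card : ℝ) := by
            rw [← Finset.sum_mul, hp1, one_mul]
    have g7 : (m : ℝ) ^ 2 - ((PosF r m).card : ℝ) ≤ (m : ℝ) ^ 2 * (2 * (r : ℝ) / m) := by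
      have e1 : (m : ℝ) ^ 2 * (2 * (r : ℝ) / m) = 2 * r * m := by
        field_simp
      rw [e1]
      unfold PosF
      rw [Finset.card_product, Finset.card_range, Nat.cast_mul]
      have e2 : ((m - r + 1 : ℕ) : ℝ) = (m : ℝ) - r + 1 := by
        rw [Nat.cast_add, Nat.cast_sub hrm]; simp
      rw [e2]
      nlinarith
    have hm2 : (0 : ℝ) < (m : ℝ) ^ 2 := by positivity
    have g8 : ‖(∑ q : {q // q ∈ PosF r m}, expecBlock Φ q.1 (hPos q.1 q.2) B) /
        (((m : ℝ) ^ 2 : ℝ) : ℂ) -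
        (∑ i, (p i : ℂ) * enS (pepsN (C i)) B) / ((m : ℂ) ^ 2)‖ ≤ 2 * (r : ℝ) / m := by
      have e1 : (((m : ℝ) ^ 2 : ℝ) : ℂ) = (m : ℂ) ^ 2 := by push_cast; ring
      rw [e1, ← sub_div, norm_div]
      have e2 : ‖(m : ℂ) ^ 2‖ = (m : ℝ) ^ 2 := by
        rw [norm_pow, Complex.norm_natCast]
      rw [e2, div_le_iff₀ hm2]
      have := g6.trans g7
      linarith
    have g9 := hB B hBc
    have g10 : expec (tot (m + 1) M Φ L') 0 B / (nrm (tot (m + 1) M Φ L') : ℂ) - expec Ψ 0 B =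
        (expec (tot (m + 1) M Φ L') 0 B / (nrm (tot (m + 1) M Φ L') : ℂ) -
          (∑ q : {q // q ∈ PosF r m}, expecBlock Φ q.1 (hPos q.1 q.2) B) /
            (((m : ℝ) ^ 2 : ℝ) : ℂ)) +
        ((∑ q : {q // q ∈ PosF r m}, expecBlock Φ q.1 (hPos q.1 q.2) B) /
            (((m : ℝ) ^ 2 : ℝ) : ℂ) -
          (∑ i, (p i : ℂ) * enS (pepsN (C i)) B) / ((m : ℂ) ^ 2)) +
        ((∑ i, (p i : ℂ) * enS (pepsN (C i)) B) / ((m : ℂ) ^ 2) - expec Ψ 0 B) := by ring
    rw [g10]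
    refine (norm_add₃_le).trans ?_
    linarith
  have hzero : Contr (fun _ _ => 0 : BConf d r → BConf d r → ℂ) := by
    intro f'
    have : nrm (fun _ : BConf d r => (∑ τ : BConf d r, (0 : ℂ) * f' τ)) = 0 := by
      unfold nrm; simp
    rw [this]
    exact nrm_nonneg f'
  refine ⟨?_, ?_⟩
  · rw [hpeps]; exact (key _ hzero).1
  · intro B hBc v
    have h5 := Pool.Agent.Y328.PE.pepsMain d L' (Fin (bondH d r m f ε))
      (fun (s : Fin d) (a b c' t : Fin (bondH d r m f ε)) =>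
        tensG (N := (m + 1) * M + 1) (wB (m + 1) M (uX w C y0) (i0, y0)) s
          (e a) (e b) (e c') (e t)) r v B
    rw [h5, hpeps]
    refine (key B hBc).2.trans ?_
    have : 0 ≤ ((nT d r : ℕ) : ℝ) * η := by positivity
    have : 0 ≤ 16 * (r : ℝ) * η := by positivity
    nlinarith

end Pool.Agent.N563.TP
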